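import Pool.Agent.TH423.PO.All

set_option autoImplicit false

/-!
# The Goldbach problem for every even number: almost primes with prescribed classes of `Ω`

Let `k ≥ 1` and `ε > 0`. There are `R` and `δ > 0` such that for EVERY large `n` the even number `2 n`
is a sum `(n - x) + (n + x)` of two almost primes (at most `R` prime factors, all larger than `n ^ δ`)
such that `(Ω(n - x), Ω(n + x))` is any given element of some coset `{(u + g, u)}` of the diagonal of
`(ZMod k)²`, with `g` depending on `n`; there are at least `n ^ (1 - ε)` such `x` for each of them.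
-/

open Finset Filter Topology

namespace Pool.Agent.Results.MP_967f73_nt.JointClassesOfOmega

/-- a positive integer with at most `R` prime factors (with multiplicity), all larger than `y` -/
def AlmostPrime (y : ℝ) (R : ℕ) (m : ℕ) : Prop :=
  0 < m ∧ (∀ p : ℕ, p.Prime → p ∣ m → y < p) ∧ ArithmeticFunction.cardFactors m ≤ R

theorem conv {y y' : ℝ} (hy : y' ≤ y) {R m : ℕ}
    (h : Pool.Agent.TH423.DS.AlmostPrime y R (m : ℤ)) : AlmostPrime y' R m := by
  obtain ⟨h1, h2, h3⟩ := h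
  refine ⟨?_, fun p hp hd => lt_of_le_of_lt hy (h2 p hp ?_), ?_⟩
  · exact Nat.pos_of_ne_zero (by exact_mod_cast h1)
  · exact_mod_cast hd
  · simpa using h3

/-- For `k ≥ 1` and `ε > 0` there are `R`, `n₀` and `δ > 0` such that for every `n ≥ n₀` there is a class
`g` modulo `k` such that for EVERY class `u` modulo `k` at least `n ^ (1 - ε)` integers `x` with
`|x| < n` are such that `n - x` and `n + x` are almost primes (at most `R` prime factors, all larger
than `n ^ δ`) with `Ω(n - x) ≡ u + g` and `Ω(n + x) ≡ u (mod k)`. -/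
theorem result (k : ℕ) (hk : 1 ≤ k) (ε : ℝ) (hε : 0 < ε) :
    ∃ R n₀ : ℕ, ∃ δ : ℝ, 0 < δ ∧ ∀ n : ℕ, n₀ ≤ n → ∃ g : ZMod k, ∀ u : ZMod k,
      (n : ℝ) ^ (1 - ε) ≤ ({x : ℤ | |x| < n ∧
        AlmostPrime ((n : ℝ) ^ δ) R ((n : ℤ) - x).toNat ∧
        AlmostPrime ((n : ℝ) ^ δ) R ((n : ℤ) + x).toNat ∧
        ((ArithmeticFunction.cardFactors ((n : ℤ) - x).toNat : ℕ) : ZMod k) = u + g ∧
        ((ArithmeticFunction.cardFactors ((n : ℤ) + x).toNat : ℕ) : ZMod k) = u}.ncard : ℝ) := by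
  have hε1 : 0 < min ε 1 := lt_min hε one_pos
  obtain ⟨R, N₀, δ, hδ, h⟩ :=
    Pool.Agent.TH423.PO.mainG Pool.Agent.TH423.PO.gct_all k hk (min ε 1) hε1
  refine ⟨R, N₀ + 1, δ, hδ, fun n hn => ?_⟩
  obtain ⟨g, hg⟩ := h (2 * n) (by omega) (even_two_mul n)
  refine ⟨g, fun u => ?_⟩
  have hn1 : (1 : ℝ) ≤ n := by exact_mod_cast (by omega : 1 ≤ n)
  have hn2 : (n : ℝ) ≤ ((2 * n : ℕ) : ℝ) := by push_cast; linarith
  have hn0 : (0 : ℝ) ≤ n := by linarith
  have hpow : (n : ℝ) ^ δ ≤ ((2 * n : ℕ) : ℝ) ^ δ := Real.rpow_le_rpow hn0 hn2 hδ.le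
  refine le_trans ?_ ((hg u).trans ?_)
  · calc (n : ℝ) ^ (1 - ε) ≤ (n : ℝ) ^ (1 - min ε 1) :=
          Real.rpow_le_rpow_of_exponent_le hn1 (by linarith [min_le_left ε 1])
      _ ≤ ((2 * n : ℕ) : ℝ) ^ (1 - min ε 1) :=
          Real.rpow_le_rpow hn0 hn2 (by linarith [min_le_right ε 1])
  · refine Nat.cast_le.mpr (Set.ncard_le_ncard_of_injOn (fun x : ℕ => (n : ℤ) - x) ?_ ?_ ?_)
    · rintro x ⟨h1, h2, h3, h4, h5, h6⟩
      have e1 : ((n : ℤ) - ((n : ℤ) - x)).toNat = x := by omega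
      have e2 : ((n : ℤ) + ((n : ℤ) - x)).toNat = 2 * n - x := by omega
      refine ⟨?_, ?_, ?_, ?_, ?_⟩
      · rw [abs_lt]; constructor <;> omega
      · show AlmostPrime _ R ((n : ℤ) - ((n : ℤ) - x)).toNat
        rw [e1]; exact conv hpow h3
      · show AlmostPrime _ R ((n : ℤ) + ((n : ℤ) - x)).toNat
        rw [e2]; exact conv hpow h4
      · show ((ArithmeticFunction.cardFactors ((n : ℤ) - ((n : ℤ) - x)).toNat : ℕ) : ZMod k) = u + g
        rw [e1]; exact h5
      · show ((ArithmeticFunction.cardFactors ((n : ℤ) + ((n : ℤ) - x)).toNat : ℕ) : ZMod k) = u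
        rw [e2]; exact h6
    · intro x _ y _ hxy
      have : (n : ℤ) - x = (n : ℤ) - y := hxy
      omega
    · refine (Set.finite_Ioo (-(n : ℤ)) n).subset fun x hx => ?_
      have := abs_lt.mp hx.1
      exact ⟨this.1, this.2⟩

end Pool.Agent.Results.MP_967f73_nt.JointClassesOfOmega
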