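import Pool.Agent.Q145.GB1
import Pool.Agent.TH935.GF
import Pool.Agent.W93.GB1
import Pool.Agent.Q56.TF.Typ
import Pool.Agent.Q56.TF.Ord
import Pool.Agent.Q56.TF.Mul

/-!
# The binary Goldbach conjecture for all even multiples of all integers in windows around real sequences

The integers `q` are all the positive integers at a distance of at most `log ^ A N` from `r m`, for almost all
`m ≤ x`, where `r 1, ..., r x` is an arbitrary family of real numbers of nearly minimal energy; for instance the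
(real) values `β + κ₀ f m` of a polynomial `f` with integer coefficients, with arbitrary real `κ₀ ≠ 0` and `β`, or of
a generalised polynomial `f t = ∑ w_y t ^ y` whose largest exponent is greater than `1` and not an integer
(`f t = t ^ c`: the sequences of Piatetski-Shapiro). The system of the problem is solved, with the expected number of
solutions in all windows, for ALL the integers `n` for which `2 n` is a multiple of such a `q` with
`2 n ≤ q log ^ κ q`, in particular for all the even integers `2 n` of the windows.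

The asymptotic formula in short intervals for families of integers is from the starting files
(`Pool.Agent.TH935.GF.fam_win`), the passage to real sequences and multiples from `Pool.Agent.Q56.TF` (helper56).
-/

set_option autoImplicit false

namespace Pool.Agent.Results.MP_967f73_nt.NearRealSequences

open Finset

open Classical in
/-- The energy of order `p` of the family of real numbers `r 1, ..., r x`: the number of the pairs `v`, `w` of
`p`-tuples of elements of `{1, ..., x}` such that `r (v 1) + ... + r (v p)` and `r (w 1) + ... + r (w p)` differ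
by at most `1`. -/
noncomputable def energy (p x : ℕ) (r : ℕ → ℝ) : ℕ :=
  (((Fintype.piFinset fun _ : Fin p => Icc 1 x) ×ˢ (Fintype.piFinset fun _ : Fin p => Icc 1 x)).filter
    (fun q => |∑ i, r (q.1 i) - ∑ i, r (q.2 i)| ≤ 1)).card

/-- The twin prime constant `C₂ = ∏_{p > 2} (1 - 1 / (p - 1) ^ 2)`: the infimum of the decreasing partial products
over the primes `3 ≤ p ≤ z`. -/
noncomputable def C₂ : ℝ := ⨅ z : ℕ, ∏ p ∈ (Icc 3 z).filter Nat.Prime, (1 - 1 / ((p : ℝ) - 1) ^ 2)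

/-- The singular series `2 C₂ ∏_{p ∣ n, p > 2} (p - 1) / (p - 2)`. -/
noncomputable def sing (n : ℕ) : ℝ :=
  2 * C₂ * ∏ p ∈ n.primeFactors.filter (fun p => 2 < p), ((p : ℝ) - 1) / ((p : ℝ) - 2)

/-- `x` is an integral solution of the system of the problem for `n`. -/
def Solution (n : ℕ) (x : ℤ) : Prop :=
  1 ≤ (n : ℤ) - x ∧ 1 ≤ (n : ℤ) + x ∧
    (Nat.totient ((n : ℤ) - x).toNat : ℤ) + 1 = n - x ∧ (Nat.totient ((n : ℤ) + x).toNat : ℤ) + 1 = n + x

open Classical in
/-- The number of the solutions `x` with `u ≤ x < v`. -/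
noncomputable def number (n u v : ℕ) : ℕ := ((Ico u v).filter (fun x : ℕ => Solution n (x : ℤ))).card

/-- (1) The system of the problem has an integral solution for `n`. (2) For every interval `[u, v)`, `0 ≤ u < v ≤ n`,
of length at least `2 n / log ^ D (2 n)`, the number of the solutions `x` in `[u, v)` is
`sing (2 n) * (v - u) / log ^ 2 (2 n)`, up to a relative error of at most `ε`. -/
def Good (ε : ℝ) (D n : ℕ) : Prop :=
  (∃ x : ℤ, Solution n x) ∧
  ∀ u v : ℕ, v ≤ n → ((2 * n : ℕ) : ℝ) / Real.log (2 * n : ℕ) ^ D ≤ (v : ℝ) - u →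
    |(number n u v : ℝ) - sing (2 * n) * ((v : ℝ) - u) / Real.log (2 * n : ℕ) ^ 2| ≤
      ε * (sing (2 * n) * ((v : ℝ) - u) / Real.log (2 * n : ℕ) ^ 2)

/-- All integers `n > 0` such that `2 n` is a multiple of `q` with `2 n ≤ q log ^ κ q` are good; for even `q ≥ 3` and
`κ ≥ 1` this includes `n = q / 2`. -/
def Regular (ε : ℝ) (D κ q : ℕ) : Prop :=
  ∀ n : ℕ, 0 < n → q ∣ 2 * n → ((2 * n : ℕ) : ℝ) ≤ q * Real.log q ^ κ → Good ε D n

open Classical in
/-- The number of the `m` in `{1, ..., x}` for which not all positive integers `q` at a distance of at most `w` from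
`r m` have the property `G`. -/
noncomputable def exceptions (x : ℕ) (r : ℕ → ℝ) (w : ℝ) (G : ℕ → Prop) : ℕ :=
  ((Icc 1 x).filter (fun m => ∃ q : ℕ, 0 < q ∧ |(q : ℝ) - r m| ≤ w ∧ ¬ G q)).card

/-- The bound at scale `N` for the windows around the `r m`, `m ≤ x`: for all `m ≤ x` with at most `x / log ^ U N`
exceptions all positive integers `q` with `|q - r m| ≤ log ^ A N` are regular. -/
def Holds (ε : ℝ) (D A κ U N x : ℕ) (r : ℕ → ℝ) : Prop :=
  (exceptions x r (Real.log N ^ A) (Regular ε D κ) : ℝ) ≤ x / Real.log N ^ U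

/-- The sequence `f`, of growth `x ^ e`, has the property at all large scales: for all `x` with
`N / log ^ C N ≤ x ^ e ≤ B N` and all translates `β + f m`, `|β| ≤ B N`. -/
def Sequence (ε : ℝ) (D A B C κ U : ℕ) (f : ℕ → ℝ) (e : ℝ) : Prop :=
  ∃ N₀ : ℕ, ∀ N : ℕ, N₀ ≤ N → ∀ x : ℕ, (x : ℝ) ^ e ≤ B * N → (N : ℝ) ≤ Real.log N ^ C * (x : ℝ) ^ e →
    ∀ β : ℝ, |β| ≤ B * N → Holds ε D A κ U N x (fun m => β + f m)

lemma totient_prime {p : ℕ} (h : 1 ≤ p) : ((Nat.totient p : ℤ) + 1 = p) ↔ p.Prime := by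
  rw [← Nat.totient_eq_iff_prime h]
  omega

lemma solution_iff {n x : ℕ} (hx : x < n) : Solution n (x : ℤ) ↔ (n - x).Prime ∧ (2 * n - (n - x)).Prime := by
  have e1 : ((n : ℤ) - x).toNat = n - x := by omega
  have e2 : ((n : ℤ) + x).toNat = 2 * n - (n - x) := by omega
  have e3 : ((n - x : ℕ) : ℤ) = (n : ℤ) - x := by omega
  have e4 : ((2 * n - (n - x) : ℕ) : ℤ) = (n : ℤ) + x := by omega
  unfold Solution
  rw [e1, e2, ← e3, ← e4, totient_prime (by omega), totient_prime (by omega)]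
  refine ⟨fun h => ⟨h.2.2.1, h.2.2.2⟩, fun h => ⟨?_, ?_, h.1, h.2⟩⟩
  · omega
  · omega

lemma number_eq {n u v : ℕ} (hv : v ≤ n) : number n u v = Pool.Agent.W93.PG.cnt (2 * n) (n - v) (n - u) := by
  classical
  unfold number Pool.Agent.W93.PG.cnt
  refine card_bij (fun x _ => n - x) ?_ ?_ ?_
  · intro x hx
    rw [mem_filter, mem_Ico] at hx
    have h1 := (solution_iff (n := n) (x := x) (by omega)).1 hx.2
    rw [mem_filter, mem_Ioc]
    exact ⟨⟨by omega, by omega⟩, h1.1, h1.2⟩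
  · intro x hx y hy hxy
    rw [mem_filter, mem_Ico] at hx hy
    omega
  · intro p hp
    rw [mem_filter, mem_Ioc] at hp
    refine ⟨n - p, ?_, by omega⟩
    rw [mem_filter, mem_Ico]
    refine ⟨⟨by omega, by omega⟩, ?_⟩
    have hp0 : 0 < p := hp.2.1.pos
    rw [solution_iff (by omega)]
    have e : n - (n - p) = p := by omega
    rw [e]
    exact hp.2

lemma good_of (D : ℕ) (ε : ℝ) (hε : 0 < ε) : ∃ m₀ : ℕ, ∀ m : ℕ, m₀ ≤ m → 2 ∣ m →
    Pool.Agent.W93.PG.WinP (min ε (1 / 2)) (D + 1) m → Even m ∧ Good ε D (m / 2) := by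
  obtain ⟨m₀, h0⟩ := Pool.Agent.Q145.GB1.core D ε hε
  refine ⟨m₀, fun m hm h2 hw => ?_⟩
  obtain ⟨⟨p, p1, p2, p3, p4⟩, h1⟩ := h0 m hm h2 hw
  obtain ⟨n, rfl⟩ := h2
  have e : 2 * n / 2 = n := by omega
  rw [e]
  refine ⟨⟨n, by ring⟩, ⟨((n - p : ℕ) : ℤ), ?_⟩, fun u v hv hl => ?_⟩
  · have hp0 : 0 < p := p1.pos
    rw [solution_iff (by omega)]
    have e : n - (n - p) = p := by omega
    rw [e]
    exact ⟨p1, p2⟩
  · have hpos : (0 : ℝ) ≤ ((2 * n : ℕ) : ℝ) / Real.log (2 * n : ℕ) ^ D := by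
      apply div_nonneg (by positivity)
      exact pow_nonneg (Real.log_natCast_nonneg _) _
    have huv : (u : ℝ) ≤ v := by linarith
    have huv' : u ≤ v := by exact_mod_cast huv
    have e1 : ((n - u : ℕ) : ℝ) - ((n - v : ℕ) : ℝ) = (v : ℝ) - u := by
      rw [Nat.cast_sub (by omega), Nat.cast_sub hv]
      ring
    have h2 := h1 (n - v) (n - u) (by omega) (by rw [e1]; exact hl)
    rw [e1] at h2
    rw [number_eq hv]
    exact h2

/-- families of integers: few members have a bad even multiple -/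
lemma general (D p κ : ℕ) (hp : 1 ≤ p) (ε : ℝ) (hε : 0 < ε) (B C U : ℕ) :
    ∃ N₀ : ℕ, ∀ N : ℕ, N₀ ≤ N → ∀ (ι : Type) [Fintype ι] (v : ι → ℤ), (∀ i, |v i| ≤ B * N) →
      (Pool.Agent.TH935.GF.En p v : ℝ) * N ≤ Real.log N ^ C * (Fintype.card ι : ℝ) ^ (2 * p) →
      ∀ S : Finset ι, (∀ i ∈ S, 0 < v i ∧ ¬ Regular ε D κ (v i).toNat) →
      (S.card : ℝ) ≤ Fintype.card ι / Real.log N ^ U := by
  classical
  obtain ⟨m₀, h1⟩ := good_of D ε hε
  obtain ⟨N₁, h2⟩ := Pool.Agent.Q56.TF.multiples p (2 * κ) (fun c : ℤ => 0 < c ∧ Even c ∧ ¬ (Even c.toNat ∧ Good ε D (c.toNat / 2)))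
    (fun B C U => Pool.Agent.TH935.GF.transfer p B C U (fun m => Even m ∧ Good ε D (m / 2))
      (fun B C U => Pool.Agent.TH935.GF.fam_win p B C (D + 1) U m₀ hp (min ε (1 / 2))
        (lt_min hε (by norm_num)) (fun m => Even m ∧ Good ε D (m / 2)) h1)) B C U
  obtain ⟨n3, h3⟩ := Pool.Agent.H373R2.T7.ev_L' 2
  refine ⟨N₁ + n3 + B + 1, fun N hN ι _ v hv hE S hS => ?_⟩
  refine h2 N (by omega) ι v (fun i => (le_abs_self _).trans (hv i)) hE S ?_
  intro i hi
  obtain ⟨hpos, hreg⟩ := hS i hi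
  obtain ⟨q, hq⟩ : ∃ q : ℕ, q = (v i).toNat := ⟨_, rfl⟩
  have hqv : (q : ℤ) = v i := by
    rw [hq]
    exact Int.toNat_of_nonneg hpos.le
  rw [← hq] at hreg
  have hq0 : 0 < q := by
    have : (0 : ℤ) < q := by rw [hqv]; exact hpos
    exact_mod_cast this
  have h4 : ¬ ∀ n : ℕ, 0 < n → q ∣ 2 * n → ((2 * n : ℕ) : ℝ) ≤ q * Real.log q ^ κ → Good ε D n := hreg
  push Not at h4
  obtain ⟨n, hn0, ⟨l, hl⟩, hnq, hgood⟩ := h4
  have hl1 : 1 ≤ l := by
    rcases Nat.eq_zero_or_pos l with h | h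
    · rw [h] at hl
      omega
    · exact h
  have hqr : (0 : ℝ) < q := by exact_mod_cast hq0
  have hlk : (l : ℝ) ≤ Real.log q ^ κ := by
    rw [hl] at hnq
    push_cast at hnq
    exact le_of_mul_le_mul_left hnq hqr
  have hN0 : (0 : ℝ) < N := by exact_mod_cast (by omega : 0 < N)
  have hqN : (q : ℝ) ≤ (N : ℝ) * N := by
    have h5 := (le_abs_self _).trans (hv i)
    rw [← hqv] at h5
    have h6 : q ≤ B * N := by exact_mod_cast h5
    have h7 : B * N ≤ N * N := Nat.mul_le_mul_right _ (by omega)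
    exact_mod_cast h6.trans h7
  have hL2 : 2 ≤ Real.log (N : ℝ) := h3 N (by omega)
  have hlogq : Real.log q ≤ Real.log N ^ 2 := by
    calc Real.log q ≤ Real.log ((N : ℝ) * N) := Real.log_le_log hqr hqN
      _ = Real.log N + Real.log N := Real.log_mul hN0.ne' hN0.ne'
      _ ≤ Real.log N ^ 2 := by nlinarith
  have hlogq0 : 0 ≤ Real.log q := Real.log_nonneg (by exact_mod_cast hq0)
  refine ⟨l, hl1, ?_, ?_⟩
  · calc (l : ℝ) ≤ Real.log q ^ κ := hlk
      _ ≤ (Real.log N ^ 2) ^ κ := pow_le_pow_left₀ hlogq0 hlogq _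
      _ = Real.log N ^ (2 * κ) := by rw [← pow_mul]
  · have e : (l : ℤ) * v i = ((2 * n : ℕ) : ℤ) := by
      rw [hl, ← hqv]
      push_cast
      ring
    have e' : (((2 * n : ℕ) : ℤ)).toNat = 2 * n := by omega
    have e'' : 2 * n / 2 = n := by omega
    rw [e, e', e'']
    refine ⟨by exact_mod_cast (by omega : 0 < 2 * n), ⟨n, by push_cast; ring⟩, fun h => hgood h.2⟩

lemma holds_of (D A B κ U p C : ℕ) (hp : 1 ≤ p) (ε : ℝ) (hε : 0 < ε) :
    ∃ N₀ : ℕ, ∀ N : ℕ, N₀ ≤ N → ∀ (x : ℕ) (r : ℕ → ℝ), Pool.Agent.Q56.TF.Near A p B C N x r →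
      Holds ε D A κ U N x r := by
  classical
  obtain ⟨N₁, h1⟩ := general D p κ hp ε hε B C U
  refine ⟨N₁, fun N hN x r hm => ?_⟩
  refine Pool.Agent.Q56.TF.near_types hm (Q := fun c => 0 < c ∧ ¬ Regular ε D κ c.toNat)
    (fun ι _ v hv hE S hS => h1 N hN ι v hv hE S hS) _ (filter_subset _ _) ?_
  intro m hm
  obtain ⟨_, q, hq0, hq2, hq3⟩ := mem_filter.1 hm
  exact ⟨q, by exact_mod_cast hq2, by exact_mod_cast hq0, by simpa using hq3⟩

lemma sequence_of {f : ℕ → ℝ} {e : ℝ} (h : Pool.Agent.Q56.TF.Base f e) (he : 1 ≤ e) (D A B C κ U : ℕ) (ε : ℝ)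
    (hε : 0 < ε) : Sequence ε D A B C κ U f e := by
  obtain ⟨p, B', C', N₀, h1⟩ := Pool.Agent.Q56.TF.near_base h he A B C
  obtain ⟨N₁, h2⟩ := holds_of D A B' κ U (p + 1) C' (by omega) ε hε
  exact ⟨N₀ + N₁, fun N hN x hx1 hx2 β hβ =>
    h2 N (by omega) x _ ((h1 N (by omega) x hx1 hx2 β hβ).order (by omega))⟩

/-- Let `D`, `A`, `B`, `C`, `κ`, `U` and `ε > 0` be fixed.

* For every `p` the following holds for all large `N`. Let `r 1, ..., r x` be an arbitrary family of real numbers in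
  `[-B N, B N]` with an energy of order `p` of at most `log ^ C N` times `x ^ (2 p) / N` (the minimal possible order
  of magnitude). For all `m ≤ x` with at most `x / log ^ U N` exceptions, for ALL integers `q ≥ 1` with
  `|q - r m| ≤ log ^ A N` and ALL integers `n > 0` such that `2 n` is a multiple of `q` and `2 n ≤ q log ^ κ q` the
  system of the problem has a solution, and the number of its solutions in every interval of length at least
  `2 n / log ^ D (2 n)` is as predicted up to a relative error of at most `ε`.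
* This holds for `r m = β + κ₀ f m`, `m ≤ x`, where `f` is a fixed nonconstant polynomial with integer
  coefficients, of degree `d`, `κ₀ ≠ 0` is a fixed real number, `β` is any real number with `|β| ≤ B N`, and
  `N / log ^ C N ≤ x ^ d ≤ B N`.
* This holds for `r m = β + ∑ w_y m ^ y` (a sum over a finite set `F` of real exponents `y`), if the largest
  exponent `e` is greater than `1` and not an integer, `w_e ≠ 0`, `|β| ≤ B N` and `N / log ^ C N ≤ x ^ e ≤ B N`; for
  instance for `r m = β + m ^ e`. -/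
theorem result (D A B C κ U : ℕ) (ε : ℝ) (hε : 0 < ε) :
    (∀ p : ℕ, ∃ N₀ : ℕ, ∀ N : ℕ, N₀ ≤ N → ∀ (x : ℕ) (r : ℕ → ℝ), (∀ m ∈ Icc 1 x, |r m| ≤ B * N) →
      (energy p x r : ℝ) * N ≤ Real.log N ^ C * (x : ℝ) ^ (2 * p) → Holds ε D A κ U N x r) ∧
    (∀ f : Polynomial ℤ, 1 ≤ f.natDegree → ∀ κ₀ : ℝ, κ₀ ≠ 0 →
      Sequence ε D A B C κ U (fun m => κ₀ * ((f.eval (m : ℤ) : ℤ) : ℝ)) f.natDegree) ∧
    (∀ (F : Finset ℝ) (w : ℝ → ℝ) (e : ℝ), e ∈ F → (∀ y ∈ F, y ≤ e) → w e ≠ 0 → 1 < e → (∀ k : ℕ, e ≠ k) →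
      Sequence ε D A B C κ U (fun m => ∑ y ∈ F, w y * (m : ℝ) ^ y) e) := by
  classical
  refine ⟨fun p => ?_, fun f hd κ₀ hκ => ?_, fun F w e heF hmax hwe he hen => ?_⟩
  · obtain ⟨B', C', N₀, h1⟩ := Pool.Agent.Q56.TF.near_gen p A B C
    obtain ⟨N₁, h2⟩ := holds_of D A B' κ U (p + 1) C' (by omega) ε hε
    exact ⟨N₀ + N₁, fun N hN x r hr hE => h2 N (by omega) x _ ((h1 N (by omega) x r hr hE).order (by omega))⟩
  · exact sequence_of ((Pool.Agent.Q56.TF.base_poly f hd).dil hκ) (by exact_mod_cast hd) D A B C κ U ε hε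
  · exact sequence_of (Pool.Agent.Q56.TF.base_gp F w e heF hmax hwe he hen) he.le D A B C κ U ε hε

end Pool.Agent.Results.MP_967f73_nt.NearRealSequences
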