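import Pool.Agent.Q20.AS.Main

/-!
# Goldbach's problem in totient form: arbitrary sets of logarithmic size do not suffice for one of the primes

Let `C`, `J`, `K`, `δ > 0` be fixed and `X` large. Whatever set `A` of at most `C log X` integers is given, every interval
`[y, y + X^δ]`, `y ≤ X^K`, contains an `n` such that for none of the integers `n, 2n, ..., Jn` the system
`φ(m - x) + 1 = m - x`, `φ(m + x) + 1 = m + x` has an integral solution `x` with `m - x ∈ A` or `m + x ∈ A`.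
-/

set_option autoImplicit false

open Finset Filter

namespace Pool.Agent.Results.MP_967f73_nt.SetsOfLogarithmicSize

/-- `x` is an integral solution of the system for `m`: `a = m - x` and `b = m + x` are positive,
`φ(a) + 1 = a` and `φ(b) + 1 = b`. -/
def IsSolution (m : ℕ) (x : ℤ) : Prop :=
  ∃ a b : ℕ, 1 ≤ a ∧ 1 ≤ b ∧ (a : ℤ) = m - x ∧ (b : ℤ) = m + x ∧
    Nat.totient a + 1 = a ∧ Nat.totient b + 1 = b

/-- No solution of the system for `m` uses an element of `A`. -/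
def NoSolutionWith (A : Set ℕ) (m : ℕ) : Prop :=
  ∀ x : ℤ, IsSolution m x → ∀ a ∈ A, (a : ℤ) ≠ m - x ∧ (a : ℤ) ≠ m + x

lemma prime_of {b : ℕ} (h1 : 1 ≤ b) (h : Nat.totient b + 1 = b) : b.Prime :=
  (Nat.totient_eq_iff_prime (by omega)).1 (by omega)

lemma uniform (C δ : ℝ) (J K : ℕ) (hδ : 0 < δ) : ∃ X₀ : ℕ, ∀ X : ℕ, X₀ ≤ X → ∀ A : Finset ℕ,
    (A.card : ℝ) ≤ C * Real.log X → ∀ y : ℕ, y ≤ X ^ K →
      ∃ n : ℕ, y ≤ n ∧ (n : ℝ) ≤ y + (X : ℝ) ^ δ ∧ ∀ j : ℕ, 1 ≤ j → j ≤ J → NoSolutionWith A (j * n) := by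
  classical
  set D : ℕ := ⌈δ⌉₊ with hD
  have hDδ : δ ≤ D := Nat.le_ceil _
  obtain ⟨X₁, h1⟩ := Pool.Agent.Q20.AS.forms ((J : ℝ) * C) δ (2 * J + 1) (K + D + 2) hδ (by omega)
  refine ⟨X₁ + 4 * J + 3, fun X hX A hA y hy => ?_⟩
  have hX1 : 3 ≤ X := by omega
  have hXr : (1 : ℝ) ≤ X := by exact_mod_cast (by omega : 1 ≤ X)
  set L : Finset (ℕ × ℤ) := (Icc 1 J ×ˢ A.filter (fun a => a ≤ X ^ (K + D + 2))).image
    (fun t : ℕ × ℕ => (2 * t.1, -(t.2 : ℤ))) with hL
  have hLc : (L.card : ℝ) ≤ (J : ℝ) * C * Real.log X := by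
    have e1 : L.card ≤ J * A.card := by
      refine card_image_le.trans ?_
      rw [card_product, Nat.card_Icc, Nat.add_sub_cancel]
      exact Nat.mul_le_mul_left _ (card_filter_le _ _)
    have e2 : (L.card : ℝ) ≤ J * A.card := by exact_mod_cast e1
    have e3 : (J : ℝ) * A.card ≤ J * (C * Real.log X) := mul_le_mul_of_nonneg_left hA (Nat.cast_nonneg J)
    linarith
  have hXD : X ≤ X ^ (K + D + 2) := by
    calc X = X ^ 1 := (pow_one X).symm
      _ ≤ X ^ (K + D + 2) := Nat.pow_le_pow_right (by omega) (by omega)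
  have hLP : ∀ l ∈ L, 1 ≤ l.1 ∧ (∀ p : ℕ, p.Prime → p ∣ l.1 → p ≤ 2 * J + 1) ∧ l.1 ≤ X ^ (K + D + 2) ∧
      |l.2| ≤ (X : ℤ) ^ (K + D + 2) := by
    intro l hl
    rw [hL, mem_image] at hl
    obtain ⟨⟨j, a⟩, hja, rfl⟩ := hl
    rw [mem_product, mem_Icc, mem_filter] at hja
    simp only at hja
    refine ⟨by omega, ?_, ?_, ?_⟩
    rotate_left
    · show 2 * j ≤ X ^ (K + D + 2)
      omega
    rotate_left
    · intro p _ hpd
      have := Nat.le_of_dvd (by omega) hpd
      simp only at this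
      omega
    · simp only [abs_neg, Nat.abs_cast]
      exact_mod_cast hja.2.2
  have hy' : y ≤ X ^ (K + D + 2) := hy.trans (Nat.pow_le_pow_right (by omega) (by omega))
  obtain ⟨n, hn1, hn2, -, -, hn3⟩ := h1 X (by omega) L hLP hLc y 1 0 hy' le_rfl (by omega) ∅ (by
    rw [card_empty, Nat.cast_zero]; positivity)
  refine ⟨n, hn1, hn2, ?_⟩
  intro j hj1 hjJ x hx a ha
  -- the key fact: `2 j n - a` is not prime
  have hnX : n ≤ 2 * X ^ (K + D) := by
    have e1 : (X : ℝ) ^ δ ≤ (X : ℝ) ^ (K + D) := by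
      calc (X : ℝ) ^ δ ≤ (X : ℝ) ^ (D : ℝ) := Real.rpow_le_rpow_of_exponent_le hXr hDδ
        _ = (X : ℝ) ^ D := Real.rpow_natCast _ _
        _ ≤ (X : ℝ) ^ (K + D) := pow_le_pow_right₀ hXr (by omega)
    have e2 : (y : ℝ) ≤ (X : ℝ) ^ (K + D) := by
      have e3 : y ≤ X ^ (K + D) := hy.trans (Nat.pow_le_pow_right (by omega) (by omega))
      exact_mod_cast e3
    have e4 : (n : ℝ) ≤ 2 * (X : ℝ) ^ (K + D) := by linarith
    exact_mod_cast e4
  have key : ∀ b : ℕ, b.Prime → a + b = 2 * (j * n) → False := by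
    intro b hb hab
    have ha1 : a ≤ X ^ (K + D + 2) := by
      calc a ≤ 2 * (j * n) := by omega
        _ ≤ 2 * (J * (2 * X ^ (K + D))) := by gcongr
        _ = (4 * J) * X ^ (K + D) := by ring
        _ ≤ (X * X) * X ^ (K + D) := by
          refine Nat.mul_le_mul_right _ ?_
          nlinarith
        _ = X ^ (K + D + 2) := by ring
    have hl : (2 * j, -(a : ℤ)) ∈ L := by
      rw [hL, mem_image]
      exact ⟨(j, a), mem_product.2 ⟨mem_Icc.2 ⟨hj1, hjJ⟩, mem_filter.2 ⟨by simpa using ha, ha1⟩⟩, rfl⟩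
    obtain ⟨p, hp, -, hpd, hplt⟩ := hn3 _ hl
    have e5 : ((2 * j : ℕ) : ℤ) * (n : ℤ) + -(a : ℤ) = (b : ℤ) := by
      have : ((a + b : ℕ) : ℤ) = ((2 * (j * n) : ℕ) : ℤ) := by rw [hab]
      push_cast at this ⊢
      linarith
    simp only at hpd hplt
    rw [e5] at hpd hplt
    rw [Nat.abs_cast] at hplt
    have e6 : p ∣ b := by exact_mod_cast hpd
    have e7 : p < b := by exact_mod_cast hplt
    rcases (Nat.dvd_prime hb).1 e6 with h | h
    · exact hp.one_lt.ne' h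
    · omega
  obtain ⟨a', b', ha', hb', ea, eb, ta, tb⟩ := hx
  constructor
  · intro he
    have e8 : a = a' := by exact_mod_cast he.trans ea.symm
    subst e8
    refine key b' (prime_of hb' tb) ?_
    have : ((a + b' : ℕ) : ℤ) = ((2 * (j * n) : ℕ) : ℤ) := by
      push_cast at ea eb ⊢
      linarith
    exact_mod_cast this
  · intro he
    have e8 : a = b' := by exact_mod_cast he.trans eb.symm
    subst e8
    refine key a' (prime_of ha' ta) ?_
    have : ((a + a' : ℕ) : ℤ) = ((2 * (j * n) : ℕ) : ℤ) := by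
      push_cast at ea eb ⊢
      linarith
    exact_mod_cast this

/-- (1) Let `C`, `δ > 0`, `J`, `K` be fixed. For all `X ≥ X₀` and ALL sets `A` of at most `C log X` integers, every interval
`[y, y + X ^ δ]` with `y ≤ X ^ K` contains an `n` such that for none of the numbers `m = n, 2n, ..., Jn` the system
has an integral solution `x` with `m - x ∈ A` or `m + x ∈ A`.

(2) In particular, if a set `A` of natural numbers has at most `C log x` elements `≤ x` for all large `x`, there are for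
every `J` infinitely many `n` such that for none of the numbers `m = n, 2n, ..., Jn` the system has a solution `x`
with `m - x ∈ A` or `m + x ∈ A`. -/
theorem result :
    (∀ (C δ : ℝ) (J K : ℕ), 0 < δ → ∃ X₀ : ℕ, ∀ X : ℕ, X₀ ≤ X → ∀ A : Finset ℕ,
      (A.card : ℝ) ≤ C * Real.log X → ∀ y : ℕ, y ≤ X ^ K →
        ∃ n : ℕ, y ≤ n ∧ (n : ℝ) ≤ y + (X : ℝ) ^ δ ∧
          ∀ j : ℕ, 1 ≤ j → j ≤ J → NoSolutionWith A (j * n)) ∧
    (∀ (A : Set ℕ) (C : ℝ), (∃ x₀ : ℕ, ∀ x : ℕ, x₀ ≤ x → ((A ∩ Set.Icc 0 x).ncard : ℝ) ≤ C * Real.log x) →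
      ∀ J : ℕ, {n : ℕ | ∀ j : ℕ, 1 ≤ j → j ≤ J → NoSolutionWith A (j * n)}.Infinite) := by
  refine ⟨fun C δ J K hδ => uniform C δ J K hδ, ?_⟩
  intro A C hA J
  classical
  obtain ⟨x₀, hA⟩ := hA
  obtain ⟨X₀, h⟩ := uniform (2 * C) 1 J 1 one_pos
  rw [Set.infinite_iff_exists_gt]
  intro M
  set X : ℕ := X₀ + x₀ + 4 * J + M + 4 with hX
  -- the finite set
  have hX4 : 4 * J + 4 ≤ X := by omega
  have hfin : (A ∩ Set.Icc 0 (X ^ 2)).Finite := (Set.finite_Icc 0 (X ^ 2)).subset Set.inter_subset_right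
  have hx2 : x₀ ≤ X ^ 2 := by nlinarith
  have hc : ((hfin.toFinset).card : ℝ) ≤ 2 * C * Real.log X := by
    rw [← Set.ncard_eq_toFinset_card _ hfin]
    refine (hA (X ^ 2) hx2).trans_eq ?_
    push_cast
    rw [Real.log_pow]
    push_cast
    ring
  obtain ⟨n, hn1, hn2, hn3⟩ := h X (by omega) hfin.toFinset hc X (by rw [pow_one])
  rw [Real.rpow_one] at hn2
  have hn2' : n ≤ X + X := by exact_mod_cast hn2
  refine ⟨n, ?_, by omega⟩
  intro j hj1 hjJ x hx a ha
  by_cases haX : a ≤ X ^ 2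
  · refine hn3 j hj1 hjJ x hx a ?_
    simp only [Set.Finite.coe_toFinset]
    exact ⟨ha, Set.mem_Icc.2 ⟨Nat.zero_le _, haX⟩⟩
  · -- `a` is too large
    obtain ⟨a', b', ha', hb', ea, eb, -, -⟩ := hx
    have hs : a' + b' = 2 * (j * n) := by
      have : ((a' + b' : ℕ) : ℤ) = ((2 * (j * n) : ℕ) : ℤ) := by
        push_cast at ea eb ⊢
        linarith
      exact_mod_cast this
    have hb2 : 2 * (j * n) ≤ X ^ 2 := by
      calc 2 * (j * n) ≤ 2 * (J * (X + X)) := by gcongr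
        _ = (4 * J) * X := by ring
        _ ≤ X * X := Nat.mul_le_mul_right _ (by omega)
        _ = X ^ 2 := by ring
    constructor
    · intro he
      have e8 : a = a' := by exact_mod_cast he.trans ea.symm
      omega
    · intro he
      have e8 : a = b' := by exact_mod_cast he.trans eb.symm
      omega

end Pool.Agent.Results.MP_967f73_nt.SetsOfLogarithmicSize
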