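import Pool.Agent.W23.SG.All

/-!
# Goldbach with the first summand in an arbitrary, also sparse, set of primes

Let `ε > 0`. For EVERY set `A` of primes up to `X` with `|A| ≥ X^(1-η)` and all integers `N`, `|N| ≤ 2X`, with at most
`C X / (|A| log X)` exceptions, a positive proportion of the primes `p ∈ A` is such that `N - p` is, up to a factor composed
of primes below `X^ε`, a product of at most two primes, which exceed `X^(1/7)`. If `A` contains a positive proportion of
the primes up to `X`, the number of the exceptional `N` is bounded.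

Design and proof: helper23 and the helpers of the project SG (module `Pool.Agent.W23.SG.All` of the starting repository).
-/

set_option autoImplicit false

open Finset Filter Topology

namespace Pool.Agent.Results.MP_967f73_nt.SparseSetsOfPrimes

/-- `N - p = ± m s` with `m` composed of primes `< X^ε` and `s` a product of at most two primes (counted with
multiplicity), all `> X^(1/7)`; and `p ≠ N` -/
def Represents (ε : ℝ) (X : ℕ) (N : ℤ) (p : ℕ) : Prop :=
  (p : ℤ) ≠ N ∧ ∃ m s : ℕ, (N - p).natAbs = m * s ∧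
    (∀ l : ℕ, l.Prime → l ∣ m → (l : ℝ) < (X : ℝ) ^ ε) ∧
    s.primeFactorsList.length ≤ 2 ∧ ∀ q ∈ s.primeFactors, (X : ℝ) ^ (1 / 7 : ℝ) < q

open Classical in
/-- the `N`, `|N| ≤ 2X`, for which fewer than `c |A|` of the `p ∈ A` satisfy `Represents` -/
noncomputable def exceptional (ε c : ℝ) (X : ℕ) (A : Finset ℕ) : Finset ℤ :=
  (Icc (-(2 * X : ℤ)) (2 * X)).filter (fun N : ℤ =>
    ((A.filter (fun p : ℕ => Represents ε X N p)).card : ℝ) < c * A.card)

/-- Main theorem: (1) for all sets `A` of primes up to `X` with at least `X^(1-η)` elements; (2) for the sets which contain at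
least the proportion `δ` of the primes (`|A| ≥ δ X / log X`): a bounded number of exceptions. The primes are given in
the form `φ(p) + 1 = p` of the problem. -/
theorem result : ∀ ε : ℝ, 0 < ε → ∃ c C η : ℝ, 0 < c ∧ 0 < C ∧ 0 < η ∧
    (∀ X : ℕ, 2 ≤ X → ∀ A : Finset ℕ, (∀ p ∈ A, 1 ≤ p ∧ Nat.totient p + 1 = p ∧ p ≤ X) → (X : ℝ) ^ (1 - η) ≤ A.card →
      ((exceptional ε c X A).card : ℝ) ≤ C * (X / (A.card * Real.log X))) ∧
    (∀ δ : ℝ, 0 < δ → ∃ X₀ : ℕ, ∀ X : ℕ, X₀ ≤ X → ∀ A : Finset ℕ,
      (∀ p ∈ A, 1 ≤ p ∧ Nat.totient p + 1 = p ∧ p ≤ X) → δ * (X / Real.log X) ≤ A.card →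
      ((exceptional ε c X A).card : ℝ) ≤ C / δ) := by
  classical
  intro ε hε
  obtain ⟨c, C, η, hc, hη, h⟩ := Pool.Agent.W23.SG.sparse_sets ε hε
  have hmain : ∀ X : ℕ, 2 ≤ X → ∀ A : Finset ℕ, (∀ p ∈ A, 1 ≤ p ∧ Nat.totient p + 1 = p ∧ p ≤ X) →
      (X : ℝ) ^ (1 - η) ≤ A.card →
      ((exceptional ε c X A).card : ℝ) ≤ max C 1 * (X / (A.card * Real.log X)) := by
    intro X hX A hA hcard
    have hA' : ∀ p ∈ A, p.Prime ∧ p ≤ X := by
      intro p hp
      obtain ⟨h1, h2, h3⟩ := hA p hp
      refine ⟨(Nat.totient_eq_iff_prime (by omega)).1 (by omega), h3⟩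
    have h1 := h X hX A hA' hcard
    have h2 : 0 ≤ (X : ℝ) / (A.card * Real.log X) := by
      have := Real.log_natCast_nonneg X
      positivity
    refine le_trans ?_ (mul_le_mul_of_nonneg_right (le_max_left C 1) h2)
    refine le_trans (le_of_eq ?_) h1
    refine congrArg (Nat.cast : ℕ → ℝ) (congrArg Finset.card (Finset.ext fun N => ?_))
    unfold exceptional
    rw [mem_filter, mem_filter]
    refine and_congr Iff.rfl (iff_of_eq (congrArg (fun k : ℕ => (k : ℝ) < c * A.card) ?_))
    refine congrArg Finset.card (Finset.ext fun p => ?_)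
    rw [mem_filter, mem_filter]
    exact Iff.rfl
  refine ⟨c, max C 1, η, hc, lt_max_of_lt_right one_pos, hη, hmain, ?_⟩
  intro δ hδ
  have e1 : ∀ᶠ x : ℝ in atTop, Real.log x ≤ δ * x ^ η := by
    have h1 := (isLittleO_log_rpow_atTop hη).def hδ
    filter_upwards [h1, eventually_ge_atTop (1 : ℝ)] with x h2 h3
    rw [Real.norm_eq_abs, Real.norm_eq_abs, abs_of_nonneg (Real.rpow_nonneg (by linarith) _)] at h2
    exact (le_abs_self _).trans h2
  obtain ⟨X₁, hX₁⟩ := (tendsto_natCast_atTop_atTop (R := ℝ) |>.eventually e1).exists_forall_of_atTop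
  refine ⟨max X₁ 2, ?_⟩
  intro X hX A hA hcard
  have hX2 : 2 ≤ X := (le_max_right _ _).trans hX
  have hXr : (1 : ℝ) < X := by exact_mod_cast (by omega : 1 < X)
  have hX0 : (0 : ℝ) < X := by linarith
  have hlog : 0 < Real.log X := Real.log_pos hXr
  have h1 := hX₁ X ((le_max_left _ _).trans hX)
  have h2 : (X : ℝ) ^ (1 - η) ≤ A.card := by
    refine le_trans ?_ hcard
    rw [Real.rpow_sub hX0, Real.rpow_one, mul_div_assoc', div_le_div_iff₀ (by positivity) hlog]
    nlinarith
  refine (hmain X hX2 A hA h2).trans ?_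
  have h3 : 0 < δ * (X / Real.log X) := by positivity
  have h4 : (X : ℝ) / (A.card * Real.log X) ≤ 1 / δ := by
    rw [div_le_div_iff₀ (mul_pos (h3.trans_le hcard) hlog) hδ]
    have h5 := mul_le_mul_of_nonneg_right hcard hlog.le
    have h6 : δ * (X / Real.log X) * Real.log X = X * δ := by
      field_simp
    rw [h6] at h5
    linarith
  calc max C 1 * (X / (A.card * Real.log X)) ≤ max C 1 * (1 / δ) :=
        mul_le_mul_of_nonneg_left h4 (le_max_of_le_right zero_le_one)
    _ = max C 1 / δ := by ring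

end Pool.Agent.Results.MP_967f73_nt.SparseSetsOfPrimes
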